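import Mathlib

/-!
# Tate characters of the powers of a Fermat curve
-/

set_option autoImplicit false

namespace Pool.Agent.Q63.FJ

/-- A Tate character in characteristic `p` of the `k`-th power of the Fermat curve
`x ^ m + y ^ m = z ^ m`, in the `k`-th tensor power of `H^1`: each `α i` is a character `(a, b, c)`
of `H^1` of the curve (nonzero residues with sum zero), and for each unit `t`, among the
`f k` characters `p ^ j * t * α i`, `j < f` (`f` the order of `p` modulo `m`), exactly half have
representatives in `{1, ..., m - 1}` with sum `m` (and the others with sum `2 m`). -/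
structure IsTateTensor (p m : ℕ) {k : ℕ} (α : Fin k → Fin 3 → ZMod m) : Prop where
  ne_zero : ∀ i j, α i j ≠ 0
  sum_zero : ∀ i, ∑ j, α i j = 0
  half : ∀ t : (ZMod m)ˣ,
    2 * ∑ e ∈ Finset.range (orderOf (p : ZMod m)),
      (Finset.univ.filter fun i =>
        ∑ j, ((p : ZMod m) ^ e * ((t : ZMod m) * α i j)).val = m).card =
    orderOf (p : ZMod m) * k

end Pool.Agent.Q63.FJ
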