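import Mathlib
import Pool.Agent.H916T.Defs
import Pool.Agent.Q63.FJ.Main
import Pool.Agent.Q63.FJ.TDefs

set_option autoImplicit false

namespace Pool.Agent.Q63.FJ

open Pool.Agent.H916T

variable {p m c : ℕ} {α : Fin (2 * c) → Fin 3 → ZMod m}

lemma isTate_conc [NeZero m] (hpm : p.Coprime m) (h : IsTateTensor p m α) :
    IsTate p m (conc α) := by
  refine ⟨zero_notMem_conc h.ne_zero, ?_, ?_, ?_⟩
  · rw [card_conc]
    exact ⟨3 * c, by ring⟩
  · rw [sum_conc]
    exact Finset.sum_eq_zero fun i _ => h.sum_zero i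
  · intro t
    let u : (ZMod m)ˣ := ZMod.unitOfCoprime p hpm
    have hu : (u : ZMod m) = p := ZMod.coe_unitOfCoprime p hpm
    have h1 : ∀ e, ∑ i, ∑ j, ((p : ZMod m) ^ e * ((t : ZMod m) * α i j)).val +
        (Finset.univ.filter fun i =>
          ∑ j, ((p : ZMod m) ^ e * ((t : ZMod m) * α i j)).val = m).card * m =
        (2 * c) * (2 * m) := by
      intro e
      have := sum_add h.ne_zero h.sum_zero (u ^ e * t)
      simp only [Units.val_mul, Units.val_pow_eq_pow_val, hu, mul_assoc] at this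
      simpa only [mul_assoc] using this
    have h2 : ∑ e ∈ Finset.range (orderOf (p : ZMod m)),
        ∑ i, ∑ j, ((p : ZMod m) ^ e * ((t : ZMod m) * α i j)).val +
        (∑ e ∈ Finset.range (orderOf (p : ZMod m)), (Finset.univ.filter fun i =>
          ∑ j, ((p : ZMod m) ^ e * ((t : ZMod m) * α i j)).val = m).card) * m =
        orderOf (p : ZMod m) * ((2 * c) * (2 * m)) := by
      rw [Finset.sum_mul, ← Finset.sum_add_distrib, Finset.sum_congr rfl fun e _ => h1 e]
      simp
    have h3 := h.half t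
    have h4 : (∑ e ∈ Finset.range (orderOf (p : ZMod m)),
        ((conc α).map fun a => ((p : ZMod m) ^ e * ((t : ZMod m) * a)).val).sum) =
        ∑ e ∈ Finset.range (orderOf (p : ZMod m)),
        ∑ i, ∑ j, ((p : ZMod m) ^ e * ((t : ZMod m) * α i j)).val :=
      Finset.sum_congr rfl fun e _ =>
        sum_map_conc fun a => ((p : ZMod m) ^ e * ((t : ZMod m) * a)).val
    rw [h4, card_conc]
    nlinarith [h2, h3, congrArg (· * m) h3]

end Pool.Agent.Q63.FJ
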